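import Pool.Agent.P.MP_85b516_nt.Fin

set_option autoImplicit false

namespace Pool.Agent.Results.MP_85b516_nt.FiniteModuli

/-- The number of partitions of `n` into `d`-th powers of positive integers. -/
noncomputable def powerPartitions (d n : ℕ) : ℕ :=
  Nat.card {π : Nat.Partition n // ∀ i ∈ π.parts, ∃ k : ℕ, 0 < k ∧ i = k ^ d}

/-- For every `d ≥ 2` and `a ≥ 1` there is a positive integer `G` divisible by every modulus `m`
for which `n ↦ p_d (a n + b)` is periodic modulo `m` for some `b`. -/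
theorem result (d a : ℕ) (hd : 2 ≤ d) (ha : 1 ≤ a) :
    ∃ G : ℕ, 1 ≤ G ∧ ∀ m b h : ℕ, 1 ≤ h →
      (∀ n : ℕ, powerPartitions d (a * (n + h) + b) ≡ powerPartitions d (a * n + b) [MOD m]) →
      m ∣ G :=
  Pool.Agent.P.MP_85b516_nt.main_all d a hd ha

end Pool.Agent.Results.MP_85b516_nt.FiniteModuli
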