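import Pool.Agent.P.MP_85b516_nt.LD.Fin

set_option autoImplicit false

namespace Pool.Agent.Results.MP_85b516_nt.LargeDegree

/-- The number of partitions of `n` into `d`-th powers of positive integers. -/
noncomputable def powerPartitions (d n : ℕ) : ℕ :=
  Nat.card {π : Nat.Partition n // ∀ i ∈ π.parts, ∃ k : ℕ, 0 < k ∧ i = k ^ d}

/-- For every `a ≥ 1` there is `d₀` such that for all `d ≥ d₀` no section `n ↦ p_d (a n + b)` is
periodic modulo any `m ≥ 2`. -/
theorem result (a : ℕ) (ha : 1 ≤ a) :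
    ∃ d₀ : ℕ, ∀ d : ℕ, d₀ ≤ d → ∀ m b h : ℕ, 2 ≤ m → 1 ≤ h →
      ∃ n : ℕ, ¬ powerPartitions d (a * (n + h) + b) ≡ powerPartitions d (a * n + b) [MOD m] := by
  obtain ⟨d₀, H⟩ := Pool.Agent.P.MP_85b516_nt.LD.main_all a ha
  exact ⟨d₀, fun d hd m b h hm hh => not_forall.1 (H d hd m b h hm hh)⟩

end Pool.Agent.Results.MP_85b516_nt.LargeDegree
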